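import Pool.Agent.N869.GK.X.Leaves

/-!
# The 2-Selmer groups of the twists of several elliptic curves by the divisors of one number

Let `E_1, …, E_m` be elliptic curves over `ℚ` with full rational 2-torsion and without a rational cyclic
isogeny of degree four, `E_k : y² = (x - e_k 0) (x - e_k 1) (x - e_k 2)`, with good reduction outside `2 N`,
and such that the differences of the roots of different curves do not agree modulo squares (for example
twists of one curve by different positive integers, or curves that are not related at all). For a squarefree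
number `f` prime to `2 N` we consider all the `n`-tuples `(d_1, …, d_n)` of divisors of `f` which are squares in
`ℚ_p` for the `p` dividing `2 N`, independent modulo squares, the products `d_T = ∏_{i ∈ T} d_i`, and the
`m (2 ^ n - 1)` twists `E_k^{d_T}`.

THEOREM. For ALMOST EVERY SINGLE `f` (natural density one), not only on the average over `f`, the
2-Selmer groups `Sel_2(E_k^{d_T})`, for all `k` and `T` at once, are distributed over the tuples like
independent random variables with the law of Poonen and Rains for `p = 2`, conditioned on the parity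
of the dimension: the proportion of the tuples with `dim Sel_2(E_k^{d_T}) = 2 + ρ(T, k)` for all `T` in `𝒯` and
all `k` is as close as we like to `∏_{T, k} law ρ(T, k)`, `law r = κ ∏_{i=1}^r 2/(2^i - 1) = 2 C_{2, r}`, for
all `ρ(T, k)` of the parity of `E_k`.

Before, the law was known for one curve and one twist, on the average over the twist (Heath-Brown,
Swinnerton-Dyer, Kane, Smith, for `n = 1`, `m = 1`). New: several general curves at the same time, all the
products of several divisors at the same time, and the divisors of almost every fixed `f`.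

Proof. The 2-Selmer groups of the twists are the kernels of matrices over `𝔽₂` given by the quadratic symbols
between the primes dividing the twist and their classes in a finite group; the local conditions at the
bad places are maximal isotropic subspaces (the orders of `E(ℚ_p)/2E(ℚ_p)`). First and second
moments over random colourings of the primes dividing `f`, boxes of large primes, the large sieve for
quadratic symbols, all the moments of the numbers of solutions for all the systems at once (sums over
decorations, sets stable under products of matrix algebras), and an inversion of the moments with given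
parity. For different curves the local matrices at the primes are not conjugate, which gives the
independence (`Pool/Agent/N869/GK`; parts by helpers 3, 7, 9, 19, 27, 42, 49, 55, 67, 91, 128, 163, 170, 195,
199, 221, 247, 263, 265, 271, 273, 286, 300, 306, 314, 340, 342, 344, 364, 372, 383, 386, 391, 395, 401, 413,
434, 454, 475, 478, 488, 495, 514, 527, 558, 572, 588, 592, 595, 603, 617, 655, 661, 690, 693, 700, 701, 713,
723, 803, 814, 833, 835, 853, 869, 891, 901, 933, 954).
-/

set_option autoImplicit false

namespace Pool.Agent.Results.MP_8cb858_nt.JointLawQuenched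

open Pool.Agent.N869.GK.Z (E tw Kane Apart Conductor Disc Independent AlmostAll kappa law)
open Pool.Agent.Y667.SX (Sel2H)

/-- The 2-Selmer group of the elliptic curve with the roots `e i` is finite of order `2 ^ (r + 2)`. -/
def SelDim (e : Fin 3 → ℤ) (r : ℕ) : Prop :=
  Finite (Sel2H (E e ℚ)) ∧ Nat.card (Sel2H (E e ℚ)) = 2 ^ (r + 2)

/-- The tuples of divisors of `f` which are squares at the places dividing `2 N ∞`, independent modulo
squares. -/
def tuples (N n f : ℕ) : Set (Fin n → ℕ) := {d | (∀ i, d i ∣ f ∧ Disc N (d i)) ∧ Independent d}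

/-- There are tuples, finitely many, and the proportion of those with the property `P` differs from `q` by
at most `δ`. -/
def Close (N : ℕ) {n : ℕ} (P : (Fin n → ℕ) → Prop) (q δ : ℝ) (f : ℕ) : Prop :=
  (tuples N n f).Finite ∧ 0 < (tuples N n f).ncard ∧
    |({d ∈ tuples N n f | P d}.ncard : ℝ) / ((tuples N n f).ncard : ℝ) - q| ≤ δ

section proof

open Pool.Agent.N869.GK

lemma dim_iff {N : ℕ} {e : Fin 3 → ℤ} (h : Kane N e) {t : ℤ} (ht : t ≠ 0) (r : ℕ) :
    SelDim (tw t e) r ↔ Z.SelRank (tw t e) r := by
  obtain ⟨h1, h2, -, -⟩ := Pool.Agent.N869.GK.M.sel_card (Z.rts h) ht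
  rw [Z.selrank_iff h ht, ← h2]
  unfold SelDim
  rw [Z.E_tw]
  exact ⟨fun h => h.2, fun h => ⟨h1, h⟩⟩

lemma tuples_eq (N n f : ℕ) : tuples N n f = Z.fam N false n f := by
  ext d
  constructor
  · rintro ⟨h1, h2⟩
    exact ⟨h1, h2, fun h => absurd h (by decide)⟩
  · rintro ⟨h1, h2, -⟩
    exact ⟨h1, h2⟩

end proof

/-- **Main theorem.** Let `E_1, …, E_m` be elliptic curves as above with `dim Sel_2(E_k) = r_k + 2`, let `𝒯` be a
set of nonempty subsets of `{1, …, n}` and `ρ(T, k)` numbers with `ρ(T, k) ≡ r_k` modulo `2`. For almost all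
squarefree `f` prime to `2 N` the proportion of the tuples of divisors of `f` with
`dim Sel_2(E_k^{d_T}) = ρ(T, k) + 2` for all `T` in `𝒯` and all `k` differs from `∏_{T, k} law ρ(T, k)` by at most
`δ`. The numbers `law r`, `r` of a given parity, are a probability distribution. -/
theorem result (N : ℕ) (hN : 0 < N) (m : ℕ) (e : Fin m → Fin 3 → ℤ) (he : ∀ k, Kane N (e k))
    (ha : ∀ k k', k ≠ k' → Apart (e k) (e k')) (r : Fin m → ℕ) (hr : ∀ k, SelDim (e k) (r k))
    (n : ℕ) (𝒯 : Finset (Finset (Fin n))) (h𝒯 : ∀ T ∈ 𝒯, T.Nonempty)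
    (ρ : Finset (Fin n) → Fin m → ℕ) (hρ : ∀ T ∈ 𝒯, ∀ k, ρ T k % 2 = r k % 2) :
    (∀ δ : ℝ, 0 < δ → AlmostAll (Conductor N)
      (Close N (fun d => ∀ T ∈ 𝒯, ∀ k, SelDim (tw (∏ i ∈ T, (d i : ℤ)) (e k)) (ρ T k))
        (∏ T ∈ 𝒯, ∏ k, law (ρ T k)) δ)) ∧
    (∀ j : ℕ, 0 < law j) ∧ HasSum (fun j : ℕ => law (2 * j)) 1 ∧
    HasSum (fun j : ℕ => law (2 * j + 1)) 1 ∧ 0.4194 < kappa ∧ kappa < 0.4195 := by
  refine ⟨fun δ hδ => ?_, fun j => ?_, ?_, ?_, Pool.Agent.N869.GK.Z.kappa_bd.1,
    Pool.Agent.N869.GK.Z.kappa_bd.2⟩
  · have hr' : ∀ k, Pool.Agent.N869.GK.Z.SelRank (e k) (r k) := by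
      intro k
      have h1 := (dim_iff (he k) one_ne_zero (r k)).1 (by rw [Pool.Agent.N869.GK.Z.tw_one]; exact hr k)
      rwa [Pool.Agent.N869.GK.Z.tw_one] at h1
    have key := Pool.Agent.N869.GK.Z.lawX hN he hr' ha false n (fun h => absurd h (by decide)) 𝒯 h𝒯 ρ hρ hδ
    refine key.mono fun f hf h => ?_
    obtain ⟨h1, h2, h3⟩ := h
    rw [← tuples_eq] at h1 h2 h3
    refine ⟨h1, h2, ?_⟩
    have e1 : {d ∈ tuples N n f | ∀ T ∈ 𝒯, ∀ k, SelDim (tw (∏ i ∈ T, (d i : ℤ)) (e k)) (ρ T k)} =
        {d ∈ tuples N n f | Pool.Agent.N869.GK.Z.Ex e ρ 𝒯 d} := by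
      ext d
      refine and_congr_right fun hd => ?_
      refine forall_congr' fun T => forall_congr' fun _ => forall_congr' fun k => ?_
      refine dim_iff (he k) (Finset.prod_ne_zero_iff.2 fun i _ => ?_) _
      have : 0 < d i := Nat.pos_of_ne_zero fun h => hf.1.ne_zero (zero_dvd_iff.1 (h ▸ (hd.1 i).1))
      exact_mod_cast this.ne'
    rw [e1]
    exact h3
  · refine mul_pos (lt_trans (by norm_num) Pool.Agent.N869.GK.Z.kappa_bd.1) (Finset.prod_pos fun i _ => ?_)
    have h1 : (1 : ℝ) < 2 ^ (i + 1) := one_lt_pow₀ (by norm_num) (by omega)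
    exact div_pos two_pos (by linarith)
  · exact Pool.Agent.N495.GK.t_KAP.2.2 0 (by norm_num)
  · exact Pool.Agent.N495.GK.t_KAP.2.2 1 (by norm_num)

end Pool.Agent.Results.MP_8cb858_nt.JointLawQuenched
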