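import Mathlib
import Pool.Agent.N870.EC.Fam
import Pool.Agent.N870.EC.Selge
import Pool.Agent.N454.EC.CNT2
import Pool.Agent.N568.EC.DEN
import Pool.Agent.N279.EC.Fam2
import Pool.Agent.N530.EC.SZ2
import Pool.Agent.N756.EC.Card2a
import Pool.Agent.Y728.RC.Av
import Pool.Agent.W307.FK.Main
import Pool.Agent.W307.RT.Tors
import Pool.Agent.N870.EG.Fin
import Pool.Agent.N559.EG.COMBK

/-!
# The growth of the moments of the 2-Selmer groups of the elliptic curves with full 2-torsion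

All elliptic curves over `ℚ` with full rational 2-torsion, ordered by the naive height. For a real
number `s > 0` the average of `#Sel₂ ^ s` over the curves of height at most `Z` is bounded if and
only if `s ≤ 2`. The growth of all the moments of integral order is determined: the `k`-th moment,
`k ≥ 2`, is `(log Z) ^ (e(k) + o(1))` and at most `C (log Z) ^ e(k)`, where
`e(s) = (2 ^ s - 1) / 2 - 2 (1 - 2 ^ (-s))`. The lower bound `(log Z) ^ (e(s) - ε)` holds for all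
real numbers `s > 0`.

The boundedness for `s = 2` is the theorem of the library (project FK); the upper bounds for `s > 2`
are an adaptation of it. The parts CNT2, DEN2, FAM2, SZ2, CARD2, COMBK, SOMK are due to helper454,
helper75, helper568, helper849, helper279, helper530, helper756, helper559, helper199.
-/

set_option autoImplicit false

namespace Pool.Agent.Results.MP_8cb858_nt.MomentGrowth

open Finset Filter Topology
open Pool.Agent.Y667.SX (Sel2H)

/-- the curve `y² = x³ + A x + B` over `ℚ`, `c = (A, B)` -/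
def E (c : ℤ × ℤ) : WeierstrassCurve ℚ := ⟨0, 0, 0, (c.1 : ℚ), (c.2 : ℚ)⟩

/-- The pairs `(A, B)` of integers such that `4 A³ + 27 B² ≠ 0`, there is no prime `p` with
`p⁴ ∣ A` and `p⁶ ∣ B`, `Z/2 x Z/2` embeds in the group of the rational points of
`y² = x³ + A x + B`, and the naive height `max (4 |A|³) (27 B²)` is at most `Z`. Every elliptic curve
over `ℚ` with full rational 2-torsion is isomorphic to `E c` for exactly one pair `c` with the first
three properties. -/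
def Fam (Z : ℕ) : Set (ℤ × ℤ) :=
  {c : ℤ × ℤ | 4 * c.1 ^ 3 + 27 * c.2 ^ 2 ≠ 0 ∧
    (∀ p : ℕ, p.Prime → ¬ ((p : ℤ) ^ 4 ∣ c.1 ∧ (p : ℤ) ^ 6 ∣ c.2)) ∧
    (∃ f : ZMod 2 × ZMod 2 →+ (E c).toAffine.Point, Function.Injective f) ∧
    4 * |c.1| ^ 3 ≤ Z ∧ 27 * c.2 ^ 2 ≤ Z}

/-- the average of `#Sel₂ ^ s` over the curves of height at most `Z` -/
noncomputable def moment (s : ℝ) (Z : ℕ) : ℝ :=
  (∑ᶠ c ∈ Fam Z, (Nat.card (Sel2H (E c)) : ℝ) ^ s) / (Fam Z).ncard

/-! ### Comparison with the family of the library -/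

lemma Fam_eq (H : ℕ) : Fam H = (Pool.Agent.W307.RT.Cv 2 H : Set (ℤ × ℤ)) := by
  classical
  ext c
  have h : Pool.Agent.W307.RT.HasT 2 (Pool.Agent.W307.RT.Sh c.1 c.2) ↔
    ∃ f : ZMod 2 × ZMod 2 →+ (E c).toAffine.Point, Function.Injective f :=
    Pool.Agent.W307.RT.tors_iff
  unfold Fam Pool.Agent.W307.RT.Cv
  rw [Set.mem_ofPred_eq, mem_coe, mem_filter, h, mem_product, mem_Icc, mem_Icc]
  constructor
  · rintro ⟨h1, h2, h3, h4, h5⟩
    refine ⟨⟨?_, ?_⟩, h1, h4, h5, h2, h3⟩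
    · rw [← abs_le]
      have h0 := abs_nonneg c.1
      rcases eq_or_lt_of_le h0 with h6 | h6
      · rw [← h6]; positivity
      · have : 1 ≤ |c.1| := h6
        nlinarith [mul_nonneg h0 h0, mul_self_nonneg (|c.1| - 1)]
    · rw [← abs_le]
      have h0 := abs_nonneg c.2
      rw [← sq_abs] at h5
      rcases eq_or_lt_of_le h0 with h6 | h6
      · rw [← h6]; positivity
      · have : 1 ≤ |c.2| := h6
        nlinarith
  · rintro ⟨-, h1, h4, h5, h2, h3⟩
    exact ⟨h1, h2, h3, h4, h5⟩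

lemma tendstoH : Tendsto (fun Z : ℕ => (Fam Z).ncard) atTop atTop := by
  simp only [Fam_eq, Set.ncard_coe_finset]
  exact Pool.Agent.W307.RT.tendsto_of_low Pool.Agent.W672.FK.lowf

lemma mem_ok {Z : ℕ} {c : ℤ × ℤ} (h : c ∈ Fam Z) : 4 * c.1 ^ 3 + 27 * c.2 ^ 2 ≠ 0 ∧
    Pool.Agent.W307.RT.HasT 2 (Pool.Agent.W307.RT.Sh c.1 c.2) :=
  ⟨h.1, Pool.Agent.W307.RT.tors_iff.2 h.2.2.1⟩

lemma sel_card {Z : ℕ} {c : ℤ × ℤ} (h : c ∈ Fam Z) :
    Nat.card (Sel2H (E c)) = (Pool.Agent.W307.SE.SelR c.1 c.2).ncard :=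
  (Pool.Agent.Y728.RC.sel_eq (mem_ok h).1 (mem_ok h).2).1.2

lemma one_le {Z : ℕ} {c : ℤ × ℤ} (h : c ∈ Fam Z) :
    1 ≤ (Pool.Agent.W307.SE.SelR c.1 c.2).ncard := by
  have h1 := Pool.Agent.Y728.RC.four_le (mem_ok h).1 (mem_ok h).2
  have h2 : 1 ≤ 2 ^ Module.finrank ℤ (Pool.Agent.W307.RT.Sh c.1 c.2).toAffine.Point :=
    Nat.one_le_two_pow
  omega

lemma moment_eq (s : ℝ) (Z : ℕ) : moment s Z = (∑ c ∈ Pool.Agent.W307.RT.Cv 2 Z,
    ((Pool.Agent.W307.SE.SelR c.1 c.2).ncard : ℝ) ^ s) / (Pool.Agent.W307.RT.Cv 2 Z).card := by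
  unfold moment
  rw [finsum_mem_congr rfl (fun c hc => by rw [sel_card hc])]
  rw [Fam_eq, finsum_mem_coe_finset, Set.ncard_coe_finset]

/-- the exponent -/
noncomputable def e (s : ℝ) : ℝ := (2 ^ s - 1) / 2 - 2 * (1 - 2 ^ (-s))

lemma e_eq (k : ℕ) : e k = Pool.Agent.N870.EG.EX k := by
  unfold e Pool.Agent.N870.EG.EX
  rw [Real.rpow_neg (by norm_num), Real.rpow_natCast, one_div]

lemma e_fac (s : ℝ) : e s = ((2 : ℝ) ^ s - 1) * (2 ^ s - 4) / (2 * 2 ^ s) := by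
  have h0 : (0 : ℝ) < 2 ^ s := by positivity
  have hneg : (2 : ℝ) ^ (-s) = 1 / 2 ^ s := by rw [Real.rpow_neg (by norm_num), one_div]
  unfold e
  rw [hneg]
  field_simp
  ring

lemma e_nonneg {k : ℕ} (hk : 2 ≤ k) : 0 ≤ e k := by
  rw [e_eq]
  exact Pool.Agent.N870.EG.EX_nonneg hk

lemma upper {k : ℕ} (hk : 2 ≤ k) : ∃ C : ℝ, 0 ≤ C ∧ ∀ Z : ℕ, 1 ≤ Z →
    moment k Z ≤ C * (1 + Real.log Z) ^ e k := by
  obtain ⟨C, hC0, hC⟩ := Pool.Agent.N870.EG.finq Pool.Agent.N559.EG.t_COMBK hk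
  refine ⟨C, hC0, fun Z hZ => ?_⟩
  have hlZ : 0 ≤ Real.log (Z : ℝ) := Real.log_natCast_nonneg Z
  rw [moment_eq, e_eq]
  refine div_le_of_le_mul₀ (Nat.cast_nonneg _) (by positivity) ?_
  have h1 := hC Z hZ
  have h2 : ∑ c ∈ Pool.Agent.W307.RT.Cv 2 Z,
      ((Pool.Agent.W307.SE.SelR c.1 c.2).ncard : ℝ) ^ (k : ℝ) =
      ∑ c ∈ Pool.Agent.W307.RT.Cv 2 Z, ((Pool.Agent.W307.SE.SelR c.1 c.2).ncard : ℝ) ^ k :=
    sum_congr rfl fun c _ => Real.rpow_natCast _ _
  rw [h2]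
  refine h1.trans (le_of_eq ?_)
  ring

/-- the limit from the two bounds -/
lemma limit_of {M : ℕ → ℝ} {e C : ℝ} (hC : 0 < C)
    (hup : ∀ Z : ℕ, 1 ≤ Z → M Z ≤ C * (1 + Real.log Z) ^ e) (he : 0 ≤ e)
    (hlow : ∀ ε : ℝ, 0 < ε → ∃ Z₀ : ℕ, ∀ Z : ℕ, Z₀ ≤ Z → (Real.log Z) ^ (e - ε) ≤ M Z) :
    Tendsto (fun Z : ℕ => Real.log (M Z) / Real.log (Real.log Z)) atTop (𝓝 e) := by
  rw [Metric.tendsto_atTop]
  intro δ hδ
  obtain ⟨Z₀, hZ₀⟩ := hlow (δ / 2) (by positivity)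
  have hll : Tendsto (fun Z : ℕ => Real.log (Real.log (Z : ℝ))) atTop atTop :=
    Real.tendsto_log_atTop.comp (Real.tendsto_log_atTop.comp tendsto_natCast_atTop_atTop)
  obtain ⟨Z₁, hZ₁⟩ := eventually_atTop.1 (hll.eventually_ge_atTop
    (1 + (|Real.log C| + e * Real.log 2) * (2 / δ)))
  obtain ⟨Z₂, hZ₂⟩ := eventually_atTop.1 ((Real.tendsto_log_atTop.comp
    (tendsto_natCast_atTop_atTop (R := ℝ))).eventually_ge_atTop 1)
  refine ⟨Z₀ + Z₁ + Z₂ + 3, fun Z hZ => ?_⟩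
  have h1 := hZ₀ Z (by omega)
  have h2 := hZ₁ Z (by omega)
  have h3 : (1 : ℝ) ≤ Real.log Z := hZ₂ Z (by omega)
  have h4 := hup Z (by omega)
  obtain ⟨l, hl⟩ : ∃ l : ℝ, l = Real.log Z := ⟨_, rfl⟩
  rw [← hl] at h1 h2 h3 h4 ⊢
  have hl0 : 0 < l := by linarith
  have hlog2 : 0 < Real.log 2 := Real.log_pos (by norm_num)
  have hK : 0 ≤ |Real.log C| + e * Real.log 2 := by positivity
  have hL1 : 1 ≤ Real.log l := by
    have : 0 ≤ (|Real.log C| + e * Real.log 2) * (2 / δ) := by positivity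
    linarith
  have hL0 : 0 < Real.log l := by linarith
  have hM0 : 0 < M Z := lt_of_lt_of_le (Real.rpow_pos_of_pos hl0 _) h1
  have h5 : (e - δ / 2) * Real.log l ≤ Real.log (M Z) := by
    rw [← Real.log_rpow hl0]
    exact Real.log_le_log (Real.rpow_pos_of_pos hl0 _) h1
  have h6 : Real.log (M Z) ≤ |Real.log C| + e * (Real.log 2 + Real.log l) := by
    have h7 : M Z ≤ C * (2 * l) ^ e := by
      refine h4.trans (mul_le_mul_of_nonneg_left ?_ hC.le)
      exact Real.rpow_le_rpow (by linarith) (by linarith) he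
    have h8 := Real.log_le_log hM0 h7
    rw [Real.log_mul hC.ne' (by positivity), Real.log_rpow (by positivity),
      Real.log_mul (by norm_num) hl0.ne'] at h8
    linarith [le_abs_self (Real.log C)]
  have h7 : (|Real.log C| + e * Real.log 2) < δ * Real.log l := by
    have h8 : (|Real.log C| + e * Real.log 2) * (2 / δ) < Real.log l := by linarith
    have h9 := mul_lt_mul_of_pos_left h8 hδ
    have h10 : δ * ((|Real.log C| + e * Real.log 2) * (2 / δ)) =
        2 * (|Real.log C| + e * Real.log 2) := by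
      field_simp
    rw [h10] at h9
    linarith
  have h8 : Real.log (M Z) / Real.log l < e + δ := by
    rw [div_lt_iff₀ hL0]
    nlinarith
  have h9 : e - δ < Real.log (M Z) / Real.log l := by
    rw [lt_div_iff₀ hL0]
    nlinarith
  rw [Real.dist_eq, abs_lt]
  constructor <;> linarith

/-- **The growth of the moments of the 2-Selmer group over all elliptic curves with full 2-torsion.**
Order all the elliptic curves over `ℚ` with full rational 2-torsion by the naive height, and let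
`e s = (2 ^ s - 1) / 2 - 2 (1 - 2 ^ (-s))`, so that `e s > 0` exactly for `s > 2`.

* For a real number `s > 0` the average of `#Sel₂ ^ s` over the curves of height at most `Z` is
  bounded if and only if `s ≤ 2`.
* For every real number `s > 0` and `ε > 0` it is at least `(log Z) ^ (e s - ε)` for large `Z`.
* For every integer `k ≥ 2` it is at most `C (1 + log Z) ^ (e k)`, `C` depending on `k` only; so it
  is `(log Z) ^ (e k + o(1))`. -/
theorem result :
    (∀ Z : ℕ, (Fam Z).Finite) ∧ Tendsto (fun Z : ℕ => (Fam Z).ncard) atTop atTop ∧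
    (∀ Z : ℕ, ∀ c ∈ Fam Z, Finite (Sel2H (E c))) ∧
    (∀ s : ℝ, 0 < s → ((∃ C : ℝ, ∀ Z : ℕ, moment s Z ≤ C) ↔ s ≤ 2)) ∧
    (∀ s ε : ℝ, 0 < s → 0 < ε → ∃ Z₀ : ℕ, ∀ Z : ℕ, Z₀ ≤ Z →
      (Real.log Z) ^ (e s - ε) ≤ moment s Z) ∧
    (∀ k : ℕ, 2 ≤ k → ∃ C : ℝ, ∀ Z : ℕ, 1 ≤ Z → moment k Z ≤ C * (1 + Real.log Z) ^ (e k)) ∧
    (∀ k : ℕ, 2 ≤ k →
      Tendsto (fun Z : ℕ => Real.log (moment k Z) / Real.log (Real.log Z)) atTop (𝓝 (e k))) := by
  classical
  have hlow : ∀ s ε : ℝ, 0 < s → 0 < ε → ∃ Z₀ : ℕ, ∀ Z : ℕ, Z₀ ≤ Z →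
      (Real.log Z) ^ (e s - ε) ≤ moment s Z := by
    intro s ε hs hε
    unfold e
    obtain ⟨H0, hH0⟩ := Pool.Agent.N870.EC.low_two Pool.Agent.N454.EC.t_CNT2
      Pool.Agent.N568.EC.t_DEN2 Pool.Agent.N279.EC.t_FAM2
      (Pool.Agent.N530.EC.t_SZ2 Pool.Agent.N870.EC.selge) Pool.Agent.N756.EC.card2 s ε hs hε
    obtain ⟨Z1, hZ1⟩ := eventually_atTop.1 (tendstoH.eventually_ge_atTop 1)
    refine ⟨H0 + Z1, fun Z hZ => ?_⟩
    have h1 := hH0 Z (by omega)
    have h2 := hZ1 Z (by omega)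
    rw [Fam_eq, Set.ncard_coe_finset] at h2
    have h3 : (0 : ℝ) < (Pool.Agent.W307.RT.Cv 2 Z).card := by exact_mod_cast h2
    rw [moment_eq, le_div_iff₀ h3, mul_comm]
    exact h1
  have hup : ∀ k : ℕ, 2 ≤ k → ∃ C : ℝ, 0 ≤ C ∧ ∀ Z : ℕ, 1 ≤ Z →
      moment k Z ≤ C * (1 + Real.log Z) ^ (e k) := fun k hk => upper hk
  refine ⟨fun Z => by rw [Fam_eq]; exact finite_toSet _, tendstoH, ?_, ?_, hlow, ?_, ?_⟩
  · intro Z c hc
    exact (Pool.Agent.Y728.RC.sel_eq (mem_ok hc).1 (mem_ok hc).2).1.1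
  · intro s hs
    constructor
    · rintro ⟨C, hC⟩
      by_contra hs2
      push Not at hs2
      have h2s : (4 : ℝ) < 2 ^ s := by
        calc (4 : ℝ) = 2 ^ (2 : ℝ) := by norm_num
          _ < 2 ^ s := Real.rpow_lt_rpow_of_exponent_lt (by norm_num) hs2
      have he : 0 < e s := by
        rw [e_fac]
        apply div_pos
        · apply mul_pos <;> linarith
        · positivity
      obtain ⟨Z₀, hZ₀⟩ := hlow s (e s / 2) hs (by positivity)
      obtain ⟨L1, hL1⟩ := eventually_atTop.1 (((tendsto_rpow_atTop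
        (show 0 < e s / 2 by positivity)).comp (Real.tendsto_log_atTop.comp
          (tendsto_natCast_atTop_atTop (R := ℝ)))).eventually_ge_atTop (C + 1))
      have h1 := hZ₀ (Z₀ + L1) (by omega)
      have h2 := hC (Z₀ + L1)
      have h3 : C + 1 ≤ (Real.log ((Z₀ + L1 : ℕ) : ℝ)) ^ (e s / 2) := hL1 (Z₀ + L1) (by omega)
      have h4 : e s - e s / 2 = e s / 2 := by ring
      rw [h4] at h1
      linarith
    · intro hs2
      obtain ⟨C, hC⟩ := Pool.Agent.W307.FK.finh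
      refine ⟨max C 0, fun Z => ?_⟩
      rw [moment_eq]
      refine div_le_of_le_mul₀ (Nat.cast_nonneg _) (le_max_right _ _) ?_
      calc ∑ c ∈ Pool.Agent.W307.RT.Cv 2 Z, ((Pool.Agent.W307.SE.SelR c.1 c.2).ncard : ℝ) ^ s
          ≤ ∑ c ∈ Pool.Agent.W307.RT.Cv 2 Z,
            ((Pool.Agent.W307.SE.SelR c.1 c.2).ncard : ℝ) ^ 2 := by
            refine sum_le_sum fun c hc => ?_
            have h0 : c ∈ Fam Z := by rw [Fam_eq]; exact mem_coe.2 hc
            have h1 : (1 : ℝ) ≤ ((Pool.Agent.W307.SE.SelR c.1 c.2).ncard : ℝ) := by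
              exact_mod_cast one_le h0
            have h2 := Real.rpow_le_rpow_of_exponent_le h1
              (show s ≤ ((2 : ℕ) : ℝ) by push_cast; linarith)
            rwa [Real.rpow_natCast] at h2
        _ ≤ C * (Pool.Agent.W307.RT.Cv 2 Z).card := (hC Z).2
        _ ≤ max C 0 * (Pool.Agent.W307.RT.Cv 2 Z).card :=
            mul_le_mul_of_nonneg_right (le_max_left _ _) (Nat.cast_nonneg _)

  · intro k hk
    obtain ⟨C, -, hC⟩ := hup k hk
    exact ⟨C, hC⟩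
  · intro k hk
    obtain ⟨C, hC0, hC⟩ := hup k hk
    have hk0 : (0 : ℝ) < k := by exact_mod_cast (show 0 < k by omega)
    refine limit_of (C := C + 1) (by linarith) (fun Z hZ => ?_) (e_nonneg hk)
      (fun ε hε => hlow k ε hk0 hε)
    refine (hC Z hZ).trans (mul_le_mul_of_nonneg_right (by linarith) ?_)
    have : 0 ≤ Real.log (Z : ℝ) := Real.log_natCast_nonneg Z
    positivity

end Pool.Agent.Results.MP_8cb858_nt.MomentGrowth
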