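import Pool.Agent.N637.SLX.Asm
import Pool.Agent.N637.SLX.Stm3
import Pool.Agent.N637.SLX.Stm4
import Pool.Agent.N969.P15.QF
import Pool.Agent.N916.GB.Num
import Pool.Agent.Y667.RZ.Sha
import Pool.Agent.N340.K21.Dens
import Pool.Agent.N608.SLX.INV
import Pool.Agent.N494.SLX.Ser
import Pool.Agent.N222.SLX.Eqs
import Pool.Agent.N787.SLX.Qc
import Pool.Agent.N73.SLX.CNT
import Pool.Agent.N73.SLX.REL
import Pool.Agent.N701.SLX.Mom
import Pool.Agent.N555.SLX.Laj
import Pool.Agent.N327.SLX.RED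
import Pool.Agent.N756.SLX.DEN
import Pool.Agent.N738.SLX.Lt
import Pool.Agent.N427.SLX.LG
import Pool.Agent.N954.SLX.LocTwo
import Pool.Agent.N664.SLX.HR
import Pool.Agent.N362.SLX.SUF
import Pool.Agent.N488.SLX.NEC
import Pool.Agent.N134.SLX.Lin
import Pool.Agent.N134.SLX.Inj
import Pool.Agent.N747.SLX.SelQ
import Pool.Agent.N187.SLX.RK4
import Pool.Agent.N383.SLX.Hil
import Pool.Agent.N75.SLX.Mass
import Pool.Agent.N136.SLX.VAL
import Pool.Agent.N697.SLX.Sch
import Pool.Agent.N570.SLX.Avg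

/-!
# The exact law of `rank + dim Ш[2]` for the quadratic twists of `X_0(21)`

Let `n` run through the positive integers such that `-n` is a fundamental discriminant, `3` is not split and
`7` is not inert in `ℚ(√-n)` (35 percent of all the imaginary quadratic fields), and let
`E_n : y² = x (x - 9 m) (x + 7 m)`, `m = -n` or `-n / 4`, be the quadratic twist by `-n` of the modular curve
`X_0(21) : y² + x y = x³ - 4 x - 1`. Let `r` be the 4-rank of the class group of `ℚ(√-n)` and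
`s = rank E_n(ℚ) + dim Ш(E_n/ℚ)[2]`.

* For every such `n` we give exact formulas for `r` and `s`: `2 ^ (r + 1)` is the number of the squarefree
  `d ∣ n` which are norms from `ℚ_p(√-n)` for all the odd `p ∣ n`, and `s = 2 r - rank B_n`, `B_n` an explicit
  alternating form on the group of these `d`. In particular `r ≤ s ≤ 2 r` and `s` is even.
* The pair `(r, s)` has a limit law, with respect to natural density: `(r, s)` has the probability
  `∏_{l > r} (1 - 2^(-l)) / #GL_r(𝔽_2)` times the probability that a random alternating `r × r` matrix over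
  `𝔽_2` has corank `s - r`. It is a probability law, and the density of `{n : (r, s) ∈ A}` exists and is given
  by it for every set `A` of pairs.
* So `s = 0` (then `E_n(ℚ)` is finite and `Ш(E_n/ℚ)[2^∞] = 0`) for the proportion `η = 0.2888`, `s = 2` for
  the proportion `20 η / 9 = 0.6418`, and `s ≥ 4` for the proportion `1 - 29 η / 9 = 0.0695`.
-/

set_option autoImplicit false
set_option linter.style.haveILetI false

open NumberField Filter Topology Finset

namespace Pool.Agent.Results.MP_8cb858_nt.SelmerLawX21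

open scoped Classical

open Pool.Agent.TH841.SH.D (Sha)

/-- `-n` is a fundamental discriminant. -/
def FundNeg (n : ℕ) : Prop := (Squarefree n ∧ n % 4 = 3) ∨
  ∃ m : ℕ, n = 4 * m ∧ Squarefree m ∧ (m % 4 = 1 ∨ m % 4 = 2)

/-- The family: `-n` is a fundamental discriminant, `3` is not split and `7` is not inert in `ℚ(√-n)`. -/
def Family (n : ℕ) : Prop :=
  FundNeg n ∧ n % 3 ≠ 2 ∧ (n % 7 = 0 ∨ n % 7 = 3 ∨ n % 7 = 5 ∨ n % 7 = 6)

/-- The squarefree integer `m n` with `ℚ(√(m n)) = ℚ(√-n)`. -/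
def m (n : ℕ) : ℤ := if n % 2 = 1 then -(n : ℤ) else -((n / 4 : ℕ) : ℤ)

/-- The quadratic twist by `-n` of `X_0(21)`: the curve `y² = x (x - 9 m) (x + 7 m)`, `m = m n`. -/
def E (n : ℕ) : WeierstrassCurve ℚ := ⟨0, -2 * (m n : ℚ), 0, -63 * (m n : ℚ) ^ 2, 0⟩

/-- `K` is the quadratic field `ℚ(√-n)`. -/
def IsQuad (n : ℕ) (K : Type) [Field K] [NumberField K] : Prop :=
  Module.finrank ℚ K = 2 ∧ ∃ s : K, s ^ 2 = (m n : K)

/-- The 4-rank of the class group of `K` is `r`: `#Cl(K)[4] = 2 ^ r * #Cl(K)[2]`. -/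
def FourRank (K : Type) [Field K] [NumberField K] (r : ℕ) : Prop :=
  Nat.card {c : ClassGroup (𝓞 K) // c ^ 4 = 1} =
    2 ^ r * Nat.card {c : ClassGroup (𝓞 K) // c ^ 2 = 1}

/-- `rank W(ℚ) + dim Ш(W/ℚ)[2] = s`. -/
def SelRank (W : WeierstrassCurve ℚ) (s : ℕ) : Prop :=
  AddGroup.FG W.toAffine.Point ∧ Finite {x : Sha W // 2 • x = 0} ∧
    2 ^ Module.finrank ℤ W.toAffine.Point * Nat.card {x : Sha W // 2 • x = 0} = 2 ^ s

/-- `a = (r, s)`: the 4-rank of the class group of `ℚ(√-n)` is `r` and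
`rank E_n(ℚ) + dim Ш(E_n/ℚ)[2] = s`. -/
def Pair (a : ℕ × ℕ) (n : ℕ) : Prop :=
  SelRank (E n) a.2 ∧ ∀ (K : Type) [Field K] [NumberField K], IsQuad n K → FourRank K a.1

/-- `a` is of the form `x² - b y²` in `ℚ_p`: the Hilbert symbol `(a, b)_p` is `1`. -/
def Nm (p : ℕ) (a b : ℤ) : Prop := ∀ [Fact p.Prime], ∃ x y : ℚ_[p], (a : ℚ_[p]) = x ^ 2 - b * y ^ 2

/-- The group `D_n` of the squarefree divisors `d` of `n` which are norms from `ℚ_p(√-n)` for all the odd
`p ∣ n`. -/
def Dn (n d : ℕ) : Prop := Squarefree d ∧ d ∣ n ∧ ∀ p : ℕ, p.Prime → p ≠ 2 → p ∣ n → Nm p d (-n)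

/-- The symbol `(-7, n)_p`, written additively. -/
noncomputable def ep (n p : ℕ) : ZMod 2 := if Nm p (-7) n then 0 else 1

/-- The alternating form `B_n` on `D_n`: `(∑_{p ∣ d} e_p) (∑_{p ∣ d'} e_p) + ∑_{p ∣ (d, d')} e_p`. -/
noncomputable def B (n d d' : ℕ) : ZMod 2 :=
  (∑ p ∈ d.primeFactors, ep n p) * (∑ p ∈ d'.primeFactors, ep n p) +
    ∑ p ∈ (d.gcd d').primeFactors, ep n p

/-- The radical of the form. -/
def Rn (n d : ℕ) : Prop := Dn n d ∧ ∀ d' : ℕ, Dn n d' → B n d d' = 0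

/-- The matrix `M` over the field with two elements is alternating. -/
def Alt {r : ℕ} (M : Fin r → Fin r → ZMod 2) : Prop := (∀ a, M a a = 0) ∧ ∀ a b, M a b = M b a

/-- The kernel of the matrix `M` over the field with two elements has dimension `j`. -/
def Cor {r : ℕ} (M : Fin r → Fin r → ZMod 2) (j : ℕ) : Prop :=
  (univ.filter fun x : Fin r → ZMod 2 => ∀ a, ∑ b, M a b * x b = 0).card = 2 ^ j

/-- The number of the alternating `r × r` matrices of corank `j` over the field with two elements. -/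
noncomputable def alt (r j : ℕ) : ℕ :=
  (univ.filter fun M : Fin r → Fin r → ZMod 2 => Alt M ∧ Cor M j).card

/-- The order of the group `GL_r` over the field with two elements. -/
def gl (r : ℕ) : ℕ := ∏ i ∈ range r, (2 ^ r - 2 ^ i)

/-- The law: the probability of `(r, s)` is `∏_{l > r} (1 - 2^(-l)) / #GL_r(𝔽_2)` (the law of Fouvry and
Klüners of the 4-rank) times the probability that an alternating `r × r` matrix has corank `s - r`. -/
noncomputable def law (a : ℕ × ℕ) : ℝ :=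
  if a.1 ≤ a.2 then (alt a.1 (a.2 - a.1) : ℝ) / 2 ^ (a.1 * (a.1 - 1) / 2) / (gl a.1 : ℝ) *
    ∏' l : ℕ, (1 - (1 / 2 : ℝ) ^ (a.1 + 1 + l)) else 0

/-- `η = (1 - 1/2) (1 - 1/4) (1 - 1/8) ⋯` -/
noncomputable def eta : ℝ := ∏' i : ℕ, (1 - (1 / 2 : ℝ) ^ (i + 1))

/-- The number of the `n ≤ X` with the property `Q`. -/
noncomputable def count (Q : ℕ → Prop) (X : ℕ) : ℕ := ((Icc 1 X).filter fun n => Q n).card

/-- The natural density of `Q` in the family is `δ`. -/
def Density (Q : ℕ → Prop) (δ : ℝ) : Prop :=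
  Tendsto (fun X : ℕ => (count (fun n => Family n ∧ Q n) X : ℝ) / (count Family X : ℝ)) atTop (𝓝 δ)

section proof

open Pool.Agent.N637.SLX
open Pool.Agent.N916.GB (Po Vt)
open Pool.Agent.TH841.SH (IsR)

/-- all the parts -/
structure Hyps : Prop where
  ha : HA
  laj : S_LAJ
  red : S_RED
  den : S_DEN
  mass : S_MASS
  val : S_VAL
  sch : S_SCH
  hil : S_HIL
  avg : S_AVG

/-- the parts -/
theorem hyps : Hyps where
  ha :=
    { LIN := Pool.Agent.N134.SLX.t_LIN
      NEC := Pool.Agent.N488.SLX.t_NEC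
      SUF := Pool.Agent.N362.SLX.t_SUF Pool.Agent.N738.SLX.t_LT
        (Pool.Agent.N427.SLX.t_LG Pool.Agent.N738.SLX.t_LT) Pool.Agent.N954.SLX.t_LA
        Pool.Agent.N954.SLX.t_LB Pool.Agent.N664.SLX.t_HR
      INJ := Pool.Agent.N134.SLX.t_INJ
      SELQ := Pool.Agent.N637.SLX.t_SELQ
      RK4 := Pool.Agent.N187.SLX.t_RK4 }
  laj := Pool.Agent.N555.SLX.t_LAJ Pool.Agent.N608.SLX.t_INV Pool.Agent.N494.SLX.t_SER
    (Pool.Agent.N701.SLX.t_MOM Pool.Agent.N222.SLX.Eqs.t_EQS
      (Pool.Agent.N73.SLX.t_CNT Pool.Agent.N787.SLX.t_QC) Pool.Agent.N73.SLX.t_REL)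
    Pool.Agent.N73.SLX.t_REL
  red := Pool.Agent.N327.SLX.t_RED
  den := Pool.Agent.N756.SLX.t_DEN
  mass := Pool.Agent.N75.SLX.t_MASS
  val := Pool.Agent.N136.SLX.t_VAL
  sch := Pool.Agent.N697.SLX.t_SCH
  hil := Pool.Agent.N383.SLX.t_HIL
  avg := Pool.Agent.N570.SLX.t_AVG

lemma isR (n : ℕ) : IsR (E n) ((0 : ℤ) : ℚ) ((9 * m n : ℤ) : ℚ) ((-7 * m n : ℤ) : ℚ) := by
  refine ⟨rfl, ?_, rfl, ?_, ?_⟩
  · show -2 * (m n : ℚ) = _
    push_cast
    ring
  · show -63 * (m n : ℚ) ^ 2 = _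
    push_cast
    ring
  · show (0 : ℚ) = _
    push_cast
    ring

lemma po_of_odd {k : ℕ} (hk : k % 2 = 1) : ∀ p ∈ k.primeFactors, Po p := by
  intro p hp
  obtain ⟨h1, h2, h3⟩ := Nat.mem_primeFactors.1 hp
  refine ⟨h1, ?_⟩
  rintro rfl
  omega

/-- the type of `n` -/
theorem ty_of {n : ℕ} (h : Family n) : ∃ (t : Bool) (r s : ZMod 2) (S : Finset ℕ),
    Ty t r s S (m n) ∧ ((n : ℤ) = if t = true then -4 * m n else -m n) ∧
    ∀ a b, Gn a b n ↔ GjS t r s a b S := by
  obtain ⟨h1, h3, h7⟩ := h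
  rcases h1 with ⟨hs, h4⟩ | ⟨k, rfl, hs, h4⟩
  · have em : m n = -(n : ℤ) := if_pos (by omega)
    have hprod : ∏ p ∈ n.primeFactors, p = n := Nat.prod_primeFactors_of_squarefree hs
    refine ⟨false, 0, 0, n.primeFactors, ⟨po_of_odd (by omega), ⟨by omega, ?_, by omega, by omega⟩,
      Or.inl ⟨rfl, rfl, ?_, by omega⟩⟩, ?_, ?_⟩
    · rw [em, ← Int.squarefree_natAbs, Int.natAbs_neg, Int.natAbs_natCast]
      exact hs
    · rw [hprod]
      exact em
    · rw [em, if_neg (by decide)]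
      omega
    · intro a b
      unfold Gn
      constructor
      · exact fun h => h.1 (by omega)
      · exact fun h => ⟨fun _ => h, fun M hM => by omega, fun M hM => by omega,
          fun M hM => by omega⟩
  · have em : m (4 * k) = -(k : ℤ) := by
      unfold m
      rw [if_neg (by omega)]
      congr 1
      omega
    have hsqm : Squarefree (m (4 * k)) := by
      rw [em, ← Int.squarefree_natAbs, Int.natAbs_neg, Int.natAbs_natCast]
      exact hs
    have hk0 : 0 < k := hs.ne_zero.bot_lt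
    rcases h4 with h4 | h4
    · have hprod : ∏ p ∈ k.primeFactors, p = k := Nat.prod_primeFactors_of_squarefree hs
      refine ⟨true, 0, 1, k.primeFactors, ⟨po_of_odd (by omega), ⟨by omega, hsqm, by omega,
        by omega⟩, Or.inr (Or.inl ⟨rfl, rfl, rfl, ?_, by omega⟩)⟩, ?_, ?_⟩
      · rw [hprod]
        exact em
      · rw [em, if_pos rfl]
        push_cast
        ring
      · intro a b
        unfold Gn
        constructor
        · exact fun h => h.2.1 k rfl h4
        · refine fun h => ⟨fun h' => by omega, fun M hM _ => ?_, fun M hM => by omega,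
            fun M hM => by omega⟩
          have : M = k := by omega
          rw [this]
          exact h
    · obtain ⟨M, rfl⟩ : ∃ M, k = 2 * M := ⟨k / 2, by omega⟩
      have hsM : Squarefree M := hs.squarefree_of_dvd (Dvd.intro_left 2 rfl)
      have hprod : ∏ p ∈ M.primeFactors, p = M := Nat.prod_primeFactors_of_squarefree hsM
      have hM2 : M % 4 = 1 ∨ M % 4 = 3 := by omega
      rcases hM2 with hM | hM
      · refine ⟨true, 1, 1, M.primeFactors, ⟨po_of_odd (by omega), ⟨by omega, hsqm, by omega,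
          by omega⟩, Or.inr (Or.inr (Or.inl ⟨rfl, rfl, rfl, ?_, ?_⟩))⟩, ?_, ?_⟩
        · rw [hprod, em]
          push_cast
          ring
        · rw [hprod]
          exact hM
        · rw [em, if_pos rfl]
          push_cast
          ring
        · intro a b
          unfold Gn
          constructor
          · exact fun h => h.2.2.1 M (by ring) hM
          · refine fun h => ⟨fun h' => by omega, fun M' hM' => by omega, fun M' hM' _ => ?_,
              fun M' hM' => by omega⟩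
            have : M' = M := by omega
            rw [this]
            exact h
      · refine ⟨true, 1, 0, M.primeFactors, ⟨po_of_odd (by omega), ⟨by omega, hsqm, by omega,
          by omega⟩, Or.inr (Or.inr (Or.inr ⟨rfl, rfl, rfl, ?_, ?_⟩))⟩, ?_, ?_⟩
        · rw [hprod, em]
          push_cast
          ring
        · rw [hprod]
          exact hM
        · rw [em, if_pos rfl]
          push_cast
          ring
        · intro a b
          unfold Gn
          constructor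
          · exact fun h => h.2.2.2 M (by ring) hM
          · refine fun h => ⟨fun h' => by omega, fun M' hM' => by omega, fun M' hM' => by omega,
              fun M' hM' _ => ?_⟩
            have : M' = M := by omega
            rw [this]
            exact h

lemma exists_K {n : ℕ} (h : Family n) : ∃ (K : Type) (_ : Field K) (_ : NumberField K),
    Module.finrank ℚ K = 2 ∧ ∃ z : K, z ^ 2 = (m n : K) := by
  obtain ⟨t, r, s, S, hT, -, -⟩ := ty_of h
  have hneg := hT.cl.neg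
  obtain ⟨k, hk⟩ : ∃ k : ℕ, m n = -(k : ℤ) := ⟨(m n).natAbs, by omega⟩
  obtain ⟨K, i1, i2, h6, z, hz⟩ := Pool.Agent.N969.P15.exists_qf (n := k) (by omega)
  refine ⟨K, i1, i2, h6, z, ?_⟩
  rw [hz, hk]
  push_cast
  rfl

/-- **The pair in terms of the criterion.** -/
theorem pair_iff (H : Hyps) {n : ℕ} (h : Family n) (a : ℕ × ℕ) :
    Pair a n ↔ a.1 ≤ a.2 ∧ Gn a.1 (a.2 - a.1) n := by
  obtain ⟨t, r, s, S, hT, -, hG⟩ := ty_of h
  rw [hG]
  constructor
  · rintro ⟨h1, h2⟩
    obtain ⟨K, i1, i2, h6, hz⟩ := exists_K h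
    exact gj_iff H.ha hT (isR n) K h6 hz a.1 a.2 (h2 K ⟨h6, hz⟩) h1.2.2
  · rintro ⟨h1, h2⟩
    refine ⟨?_, fun K _ _ hQ => main_rk4 H.ha hT K hQ.1 hQ.2 h2⟩
    have h3 := main_sel H.ha hT (isR n) h2
    rwa [Nat.add_sub_cancel' h1] at h3

/-- the formulas -/
theorem formula (H : Hyps) {n : ℕ} (h : Family n) : ∃ a : ℕ × ℕ, Pair a n ∧ a.1 ≤ a.2 ∧
    a.2 ≤ 2 * a.1 ∧ Even a.2 ∧ Nat.card {d : ℕ // Dn n d} = 2 ^ (a.1 + 1) ∧
    2 ^ a.1 * Nat.card {d : ℕ // Rn n d} = 2 ^ (a.2 + 1) := by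
  obtain ⟨t, r, s, S, hT, hn, hG⟩ := ty_of h
  obtain ⟨a, b, h1, h2, h3⟩ := gj_ex hT
  obtain ⟨h4, h5⟩ := H.hil t r s S (m n) n hT hn
  have h6 := (crit_nat _ _ _ _).1 h1
  refine ⟨(a, a + b), (pair_iff H h _).2 ⟨Nat.le_add_right _ _, ?_⟩, Nat.le_add_right _ _, ?_, h3,
    ?_, ?_⟩
  · show Gn a (a + b - a) n
    rw [hG, Nat.add_sub_cancel_left]
    exact h1
  · show a + b ≤ 2 * a
    omega
  · show _ = 2 ^ (a + 1)
    rw [← h6.1]
    exact h4
  · show 2 ^ a * _ = 2 ^ (a + b + 1)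
    have e : Nat.card {d : ℕ // Rn n d} = 2 ^ (b + 1) := by
      rw [← h6.2]
      exact h5
    rw [e]
    ring

lemma pair_unique (H : Hyps) {n : ℕ} (h : Family n) {a a' : ℕ × ℕ} (h1 : Pair a n)
    (h2 : Pair a' n) : a = a' := by
  obtain ⟨t, r, s, S, hT, -, hG⟩ := ty_of h
  obtain ⟨h3, h4⟩ := (pair_iff H h a).1 h1
  obtain ⟨h5, h6⟩ := (pair_iff H h a').1 h2
  rw [hG] at h4 h6
  obtain ⟨h7, h8⟩ := crit_unique h4 h6
  refine Prod.ext h7 ?_
  omega

lemma law_eq (a : ℕ × ℕ) : law a = pl a := rfl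

lemma fam_iff (n : ℕ) : Family n ↔ Fam0 n := Iff.rfl

lemma count_inst {Q : ℕ → Prop} [DecidablePred Q] (X : ℕ) :
    ((Icc 1 X).filter Q).card = count Q X := by
  unfold count
  congr

lemma count_congr {Q Q' : ℕ → Prop} {X : ℕ} (h : ∀ n, Q n ↔ Q' n) : count Q X = count Q' X := by
  have e : Q = Q' := funext fun n => propext (h n)
  rw [e]

lemma dens_pt (H : Hyps) (a : ℕ × ℕ) : Density (Pair a) (law a) := by
  unfold Density
  by_cases ha : a.1 ≤ a.2
  · have h := H.den H.laj H.red a.1 (a.2 - a.1)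
    have e : law a = Pool.Agent.N637.SLX.law a.1 (a.2 - a.1) := if_pos ha
    rw [e]
    refine h.congr fun X => congrArg₂ (fun a b : ℕ => (a : ℝ) / (b : ℝ)) ?_ ?_
    · rw [count_inst]
      refine count_congr (X := X) fun n => ?_
      constructor
      · exact fun h => ⟨h.1, (pair_iff H h.1 a).2 ⟨ha, h.2⟩⟩
      · exact fun h => ⟨h.1, ((pair_iff H h.1 a).1 h.2).2⟩
    · rw [count_inst]
      exact count_congr (X := X) fun n => Iff.rfl
  · have e : law a = 0 := if_neg ha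
    rw [e]
    refine tendsto_const_nhds.congr fun X => ?_
    have h0 : count (fun n => Family n ∧ Pair a n) X = 0 := by
      rw [← count_inst, Finset.card_eq_zero, Finset.filter_eq_empty_iff]
      rintro n - ⟨h1, h2⟩
      exact ha ((pair_iff H h1 a).1 h2).1
    rw [h0, Nat.cast_zero, zero_div]

lemma ex_unique (H : Hyps) {n : ℕ} (h : Family n) : ∃! a : ℕ × ℕ, Pair a n := by
  obtain ⟨a, h1, -⟩ := formula H h
  exact ⟨a, h1, fun a' h2 => pair_unique H h h2 h1⟩

lemma law_nonneg (H : Hyps) (a : ℕ × ℕ) : 0 ≤ law a := by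
  rw [law_eq]
  unfold pl
  split_ifs
  · exact H.mass.1 _ _
  · exact le_refl 0

/-- the limit law -/
theorem dens_set (H : Hyps) (A : Set (ℕ × ℕ)) :
    Density (fun n => ∃ a ∈ A, Pair a n) (∑' a : A, law a.1) := by
  have h := H.sch Family Pair law (fun n hn => ex_unique H hn) (law_nonneg H) H.mass.2
    (fun a => (dens_pt H a).congr fun X => ?_) A
  · refine h.congr fun X => ?_
    rw [count_inst, count_inst]
  · rw [count_inst, count_inst]

/-- the case `s = 0` -/
theorem zero_case {W : WeierstrassCurve ℚ} (h : SelRank W 0) : Finite W.toAffine.Point ∧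
    ∀ (k : ℕ) (x : Sha W), (2 ^ k : ℕ) • x = 0 → x = 0 := by
  obtain ⟨h1, h2, h3⟩ := h
  rw [pow_zero] at h3
  have h4 : Module.finrank ℤ W.toAffine.Point = 0 := by
    have h5 := Nat.eq_one_of_mul_eq_one_right h3
    by_contra h6
    have h7 : 1 < 2 ^ Module.finrank ℤ W.toAffine.Point := Nat.one_lt_two_pow h6
    omega
  have h5 : Nat.card {x : Sha W // 2 • x = 0} = 1 := Nat.eq_one_of_mul_eq_one_left h3
  refine ⟨?_, fun k => Pool.Agent.Y667.SHA.no_tor (fun x hx => ?_) k⟩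
  · have : Module.Finite ℤ W.toAffine.Point := Module.Finite.iff_addGroup_fg.2 h1
    exact Module.finite_of_fg_torsion _ (Module.finrank_eq_zero_iff_isTorsion.1 h4)
  · have h6 := Nat.card_eq_one_iff_unique.1 h5
    have h7 : (⟨x, by rw [two_nsmul]; exact hx⟩ : {x : Sha W // 2 • x = 0}) = ⟨0, smul_zero 2⟩ :=
      h6.1.elim _ _
    exact congrArg Subtype.val h7

/-- the law for small `s` -/
lemma law_small (H : Hyps) (a : ℕ × ℕ) (h : a.2 ≤ 3) (h0 : a ≠ (0, 0)) (h1 : a ≠ (1, 2))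
    (h2 : a ≠ (2, 2)) : law a = 0 := by
  obtain ⟨-, -, -, -, v1, v2⟩ := H.val
  obtain ⟨r, s⟩ := a
  by_cases hrs : r ≤ s
  · have e : law (r, s) = Pool.Agent.N637.SLX.law r (s - r) := if_pos hrs
    rw [e]
    by_cases hj : r < s - r
    · exact v1 _ _ hj
    · refine v2 _ _ ?_
      rw [Nat.add_sub_cancel' hrs]
      intro he
      have hs : s ≤ 3 := h
      obtain ⟨k, hk⟩ := he
      have hk' : k = 0 ∨ k = 1 := by omega
      rcases hk' with rfl | rfl
      · have : r = 0 ∧ s = 0 := by omega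
        exact h0 (by rw [this.1, this.2])
      · have hs2 : s = 2 := by omega
        subst hs2
        have : r = 1 ∨ r = 2 := by omega
        rcases this with rfl | rfl
        · exact h1 rfl
        · exact h2 rfl
  · exact if_neg hrs

lemma vals (H : Hyps) : law (0, 0) = eta ∧ law (1, 2) = 2 * eta ∧ law (2, 2) = 2 / 9 * eta := by
  obtain ⟨v1, v2, v3, -, -, -⟩ := H.val
  refine ⟨?_, ?_, ?_⟩
  · have e : law (0, 0) = Pool.Agent.N637.SLX.law 0 0 := if_pos (le_refl 0)
    rw [e, v1]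
    rfl
  · have e : law (1, 2) = Pool.Agent.N637.SLX.law 1 1 := if_pos (by norm_num)
    rw [e, v2]
    rfl
  · have e : law (2, 2) = Pool.Agent.N637.SLX.law 2 0 := if_pos (by norm_num)
    rw [e, v3]
    rfl

/-- the pairs with `s = 2` -/
def A2 : Set (ℕ × ℕ) := {a | a.2 = 2}

/-- the pairs with `s ≥ 4` -/
def A4 : Set (ℕ × ℕ) := {a | 4 ≤ a.2}

lemma tsum_two (H : Hyps) : ∑' a : A2, law a.1 = 20 * eta / 9 := by
  obtain ⟨-, v2, v3⟩ := vals H
  have h : HasSum (A2.indicator law) (∑ a ∈ {(1, 2), (2, 2)}, A2.indicator law a) := by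
    refine hasSum_sum_of_ne_finset_zero fun a ha => ?_
    by_cases h2 : a ∈ A2
    · rw [Set.indicator_of_mem h2]
      have h3 : a.2 = 2 := h2
      refine law_small H a (by omega) ?_ (fun h => ha (by rw [h]; decide))
        (fun h => ha (by rw [h]; decide))
      rintro rfl
      exact absurd h3 (by norm_num)
    · exact Set.indicator_of_notMem h2 _
  rw [_root_.tsum_subtype, h.tsum_eq, Finset.sum_pair (by decide),
    Set.indicator_of_mem (show ((1, 2) : ℕ × ℕ) ∈ A2 from rfl),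
    Set.indicator_of_mem (show ((2, 2) : ℕ × ℕ) ∈ A2 from rfl), v2, v3]
  ring

lemma tsum_four (H : Hyps) : ∑' a : A4, law a.1 = 1 - 29 * eta / 9 := by
  obtain ⟨v1, v2, v3⟩ := vals H
  have h : HasSum (A4ᶜ.indicator law)
      (∑ a ∈ {(0, 0), (1, 2), (2, 2)}, A4ᶜ.indicator law a) := by
    refine hasSum_sum_of_ne_finset_zero fun a ha => ?_
    by_cases h2 : a ∈ A4ᶜ
    · rw [Set.indicator_of_mem h2]
      have h3 : ¬ 4 ≤ a.2 := h2
      exact law_small H a (by omega) (fun h => ha (by rw [h]; decide))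
        (fun h => ha (by rw [h]; decide)) (fun h => ha (by rw [h]; decide))
    · exact Set.indicator_of_notMem h2 _
  have hm : HasSum law 1 := H.mass.2
  have h4 := hm.summable.tsum_subtype_add_tsum_subtype_compl A4
  have m1 : ((0, 0) : ℕ × ℕ) ∈ A4ᶜ := fun h => absurd (show 4 ≤ 0 from h) (by norm_num)
  have m2 : ((1, 2) : ℕ × ℕ) ∈ A4ᶜ := fun h => absurd (show 4 ≤ 2 from h) (by norm_num)
  have m3 : ((2, 2) : ℕ × ℕ) ∈ A4ᶜ := fun h => absurd (show 4 ≤ 2 from h) (by norm_num)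
  have h5 : ∑' a : (A4ᶜ : Set (ℕ × ℕ)), law a.1 = 29 * eta / 9 := by
    rw [_root_.tsum_subtype, h.tsum_eq, Finset.sum_insert (by decide), Finset.sum_pair (by decide),
      Set.indicator_of_mem m1, Set.indicator_of_mem m2, Set.indicator_of_mem m3, v1, v2, v3]
    ring
  rw [h5, hm.tsum_eq] at h4
  linarith

/-- the size of the family -/
lemma dens_fam : Tendsto (fun X : ℕ => (count Family X : ℝ) / (count FundNeg X : ℝ)) atTop
    (𝓝 (45 / 128)) := by
  have hpi := Real.pi_ne_zero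
  have hpi0 := Real.pi_pos
  have h1 : Tendsto (fun X : ℕ => (count Family X : ℝ) / X) atTop
      (𝓝 (135 / (128 * Real.pi ^ 2))) :=
    Tendsto.congr (fun X => rfl) Pool.Agent.N340.K21.t_DENS
  have h2 : Tendsto (fun X : ℕ => (count FundNeg X : ℝ) / X) atTop (𝓝 (3 / Real.pi ^ 2)) := by
    refine Tendsto.congr (fun X => ?_) Pool.Agent.N873.F15.Dn.dens_disc
    rw [Pool.Agent.N873.F15.Dn.cnt_congr (fun n hn => Pool.Agent.N873.F15.Dn.isDisc_iff hn) X,
      Pool.Agent.N873.F15.Dn.cnt_filter, count_inst]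
    rfl
  have h := h1.div h2 (by positivity)
  have e : 135 / (128 * Real.pi ^ 2) / (3 / Real.pi ^ 2) = 45 / 128 := by
    field_simp
    ring
  rw [e] at h
  refine h.congr' ?_
  filter_upwards [eventually_gt_atTop 0] with X hX0
  have hX1 : (X : ℝ) ≠ 0 := by exact_mod_cast hX0.ne'
  show ((count Family X : ℝ) / X) / ((count FundNeg X : ℝ) / X) = _
  field_simp

end proof

/-- **Main theorem.** `law` is a probability law on the pairs `(r, s)`. -/
theorem result :
    (∀ n : ℕ, Family n → ∃ a : ℕ × ℕ, Pair a n ∧ (∀ a' : ℕ × ℕ, Pair a' n → a' = a) ∧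
      a.1 ≤ a.2 ∧ a.2 ≤ 2 * a.1 ∧ Even a.2 ∧
      Nat.card {d : ℕ // Dn n d} = 2 ^ (a.1 + 1) ∧
      2 ^ a.1 * Nat.card {d : ℕ // Rn n d} = 2 ^ (a.2 + 1)) ∧
    (∀ n : ℕ, Family n → Pair (0, 0) n → Finite (E n).toAffine.Point ∧
      ∀ (k : ℕ) (x : Sha (E n)), (2 ^ k : ℕ) • x = 0 → x = 0) ∧
    Tendsto (fun X : ℕ => (count Family X : ℝ) / (count FundNeg X : ℝ)) atTop (𝓝 (45 / 128)) ∧
    ((∀ a, 0 ≤ law a) ∧ HasSum law 1 ∧ HasSum (fun a : ℕ × ℕ => (2 : ℝ) ^ a.2 * law a) 4) ∧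
    (∀ A : Set (ℕ × ℕ), Density (fun n => ∃ a ∈ A, Pair a n) (∑' a : A, law a.1)) ∧
    Density (Pair (0, 0)) eta ∧
    Density (fun n => ∃ r, Pair (r, 2) n) (20 * eta / 9) ∧
    Density (fun n => ∃ r s, 4 ≤ s ∧ Pair (r, s) n) (1 - 29 * eta / 9) ∧
    (0.2887 < eta ∧ eta < 0.2889) := by
  have H := hyps
  refine ⟨fun n hn => ?_, fun n _ h => zero_case h.1, dens_fam,
    ⟨law_nonneg H, H.mass.2, H.avg⟩, dens_set H, ?_, ?_, ?_, Pool.Agent.N916.GB.eta_bounds⟩
  · obtain ⟨a, h1, h2⟩ := formula H hn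
    exact ⟨a, h1, fun a' h' => pair_unique H hn h' h1, h2⟩
  · have h := dens_pt H (0, 0)
    rwa [(vals H).1] at h
  · have h := dens_set H A2
    rw [tsum_two H] at h
    refine h.congr fun X => congrArg₂ (fun a b : ℕ => (a : ℝ) / (b : ℝ)) (count_congr fun n => ?_) rfl
    constructor
    · rintro ⟨h1, ⟨r, s⟩, h2, h3⟩
      have h4 : s = 2 := h2
      subst h4
      exact ⟨h1, r, h3⟩
    · rintro ⟨h1, r, h3⟩
      exact ⟨h1, (r, 2), rfl, h3⟩
  · have h := dens_set H A4
    rw [tsum_four H] at h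
    refine h.congr fun X => congrArg₂ (fun a b : ℕ => (a : ℝ) / (b : ℝ)) (count_congr fun n => ?_) rfl
    constructor
    · rintro ⟨h1, ⟨r, s⟩, h2, h3⟩
      exact ⟨h1, r, s, h2, h3⟩
    · rintro ⟨h1, r, s, h2, h3⟩
      exact ⟨h1, (r, s), h2, h3⟩

end Pool.Agent.Results.MP_8cb858_nt.SelmerLawX21
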