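import Pool.Agent.N970.AVP.Zs

/-!
# Minimal 2-Selmer groups of all the quadratic twists of three modular curves

The curves `C_0 = X_0(15) : y² = x (x + 9) (x - 16)`, `C_1 : y² = x (x + 1) (x - 16)` of conductor `17` and
`C_2 = X_0(21) : y² = x (x - 9) (x + 7)` are semistable and have no complex multiplication; `C_{j, d}` is the
twist of `C_j` by the squarefree integer `d`, of either sign and with no condition on `d`.

Put `s(E) = rank E(ℚ) + dim Ш(E)[2] = dim Sel_2(E) - 2` for `E = C_{j, d}`, which has full rational 2-torsion.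

(1) One has `s(E) = 0` (`RankZeroShaTwo`) if and only if `Sel_{2^∞}(E) = 0`, if and only if the three terms of the
sequence `0 → E(ℚ) ⊗ ℚ₂/ℤ₂ → Sel_{2^∞}(E) → Ш(E)[2^∞] → 0` are zero.
(2) The `d` with this property for all the curves `C_j`, `j ∈ S`, have the natural density `δ_S` in the set of all
the squarefree integers, in the ordering by `|d|` and in the ordering by the discriminant of `ℚ(√d)`:
`η / 2 = 0.1444…`, `c / 2 = 0.2097…`, `137 η / 256 = 0.1545…` for `C_0`, `C_1`, `C_2`, where
`η = ∏ (1 - 2^{-i})` and `c = ∏ (1 - 2^{-(2 i - 1)})`, and `433 η c / 1728` for `S = {0, 1}`, `443 η / 3072` for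
`S = {0, 2}`, `2461 η c / 9216` for `S = {1, 2}`, `8065 η c / 110592` for the three curves.
(3) The root number of these `C_{j, d}` (the product of the local root numbers) is `1`, and in the set of the `d`
with root number `1` they have the natural density `2 δ_j`, that is `η`, `c` and `137 η / 128`.
(4) For the negative fundamental discriminants `D` such that `3` is not inert and `5` is not split in
`ℚ(√D)` (`j = 0`), or `3` is not split and `7` is not inert (`j = 2`), the sequence of `C_{j, D}` is zero if and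
only if the class group of `ℚ(√D)` has no element of order four.

The model of Q1 gives the probability `C_{2, 0} = ∏_{j ≥ 0} (1 + 2^{-j})^{-1} = (1 / 2) ∏ (1 - 2^{1 - 2 i}) = c / 2`
of the dimension zero. So for `s` the family of all the quadratic twists of the curve `C_1`, which has no cyclic
isogeny of degree four over `ℚ`, has exactly the predicted probability (for this curve the law of the
2-Selmer groups is a theorem of Kane), and the families of the twists of `X_0(15)` and `X_0(21)`, which have
such an isogeny, do not: `η / 2` and `137 η / 256` are smaller. The joint law of several curves is not a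
consequence of the laws for one curve.

(1) for `C_j`, `d` rests on the Mordell-Weil theorem and the library of helpers 17, 668, 702 for the
`2^∞`-Selmer groups; (2) on the theorems of helpers 916 and 919 for one curve and of helpers 809, 877, 963,
972, 975 for several curves (problem `MP_696deb_nt`).
-/

set_option autoImplicit false

open Filter Topology

open Pool.Agent.TH841.SH.D (Sha Pruf)

open Pool.Agent.Y17.X.SI (SelInf)

namespace Pool.Agent.Results.MP_8cb858_nt.ThreeCurvesAllTwists

/-- the coefficient `a` of the equation `y² = x³ + a x + b` of the twist by `m` of the curve `C_j` -/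
def A (j : Fin 3) (m : ℤ) : ℤ := (![-12987, -91, -5211] : Fin 3 → ℤ) j * m ^ 2

/-- the coefficient `b` of the equation `y² = x³ + a x + b` of the twist by `m` of the curve `C_j` -/
def B (j : Fin 3) (m : ℤ) : ℤ := (![-263466, -330, -31050] : Fin 3 → ℤ) j * m ^ 3

/-- the twist `C_{j, m}` by `m` of the curve `C_j`, over the field `K` -/
def E (K : Type) [Field K] (j : Fin 3) (m : ℤ) : WeierstrassCurve K :=
  { a₁ := 0, a₂ := 0, a₃ := 0, a₄ := (A j m : K), a₆ := (B j m : K) }

/-- `C_{j, m}(ℚ)` is finite and `Ш(C_{j, m}/ℚ)` has no element of order two -/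
def RankZeroShaTwo (j : Fin 3) (m : ℤ) : Prop :=
  Finite (E ℚ j m).toAffine.Point ∧ ∀ x : Pool.Agent.TH841.NF.D.Sha (E ℚ j m), 2 • x = 0 → x = 0

/-- all terms of the sequence `0 → W(ℚ) ⊗ ℚ₂/ℤ₂ → Sel_{2 ^ ∞}(W) → Ш(W)[2 ^ ∞] → 0` are zero -/
def ZeroSeq (W : WeierstrassCurve ℚ) : Prop :=
  (∀ x : TensorProduct ℤ W.toAffine.Point Pruf, x = 0) ∧ (∀ x : SelInf W, x = 0) ∧
    ∀ (k : ℕ) (x : Sha W), (2 ^ k : ℕ) • x = 0 → x = 0

/-- the conductor of the curve `C_j` -/
def cond : Fin 3 → ℕ := ![15, 17, 21]

/-- `1` if the curve `C_j` has split, `- 1` if it has nonsplit multiplicative reduction at the prime `p` of its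
conductor: nonsplit at `3` for `X_0(15)` and at `7` for `X_0(21)`, split in the other cases -/
def splitSign : Fin 3 → ℕ → ℤ := ![fun p => if p = 3 then -1 else 1, fun _ => 1,
  fun p => if p = 7 then -1 else 1]

/-- the odd part of the squarefree integer `d` -/
def oddPart (d : ℤ) : ℤ := if d % 2 = 0 then d / 2 else d

/-- the local root number at the prime `p` of the twist `C_{j, d}`, `d` squarefree: `χ(-1)` for the local
character `χ` of `ℚ(√d)` at `p` if `p` divides `2 d` (`χ(-1) = 1` at `2` if and only if the odd part of `d` is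
`1 mod 4`, and `χ(-1)` is the Legendre symbol of `-1` for odd `p`), `- 1` or `+ 1` if the multiplicative
reduction at `p` is split or nonsplit, `+ 1` if the reduction is good -/
def localRoot (j : Fin 3) (d : ℤ) (p : ℕ) : ℤ :=
  if p = 2 then (if oddPart d % 4 = 1 then 1 else -1)
  else if (p : ℤ) ∣ d then jacobiSym (-1) p
  else if p ∣ cond j then -(splitSign j p * jacobiSym d p)
  else 1

/-- the root number of the twist `C_{j, d}`, `d` squarefree: the product of the local root numbers, the one
at the infinite place being `- 1` -/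
def rootNumber (j : Fin 3) (d : ℤ) : ℤ :=
  -∏ p ∈ (2 * cond j * d.natAbs).primeFactors, localRoot j d p

/-- the proportions `η / 2`, `c / 2`, `137 η / 256` -/
noncomputable def delta : Fin 3 → ℝ :=
  ![(∏' i : ℕ, (1 - (1 / 2 : ℝ) ^ (i + 1))) / 2, (∏' i : ℕ, (1 - (1 / 2 : ℝ) ^ (2 * i + 1))) / 2,
    137 / 256 * ∏' i : ℕ, (1 - (1 / 2 : ℝ) ^ (i + 1))]

/-- the proportions `δ_S`, `S` a nonempty set of the indices `j` of the curves: `η / 2`, `c / 2`,
`137 η / 256` for one curve, `433 η c / 1728` for `S = {0, 1}`, `443 η / 3072` for `S = {0, 2}`,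
`2461 η c / 9216` for `S = {1, 2}`, `8065 η c / 110592` for all three -/
noncomputable def deltaS (S : Finset (Fin 3)) : ℝ :=
  if 1 ∈ S then
    if 0 ∈ S then
      (if 2 ∈ S then 8065 / 110592 else 433 / 1728) *
        ((∏' i : ℕ, (1 - (1 / 2 : ℝ) ^ (i + 1))) * ∏' i : ℕ, (1 - (1 / 2 : ℝ) ^ (2 * i + 1)))
    else if 2 ∈ S then
      2461 / 9216 *
        ((∏' i : ℕ, (1 - (1 / 2 : ℝ) ^ (i + 1))) * ∏' i : ℕ, (1 - (1 / 2 : ℝ) ^ (2 * i + 1)))
    else (∏' i : ℕ, (1 - (1 / 2 : ℝ) ^ (2 * i + 1))) / 2
  else
    (if 0 ∈ S then (if 2 ∈ S then 443 / 3072 else 1 / 2) else 137 / 256) *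
      ∏' i : ℕ, (1 - (1 / 2 : ℝ) ^ (i + 1))

/-- `D` is a fundamental discriminant (`1` included) -/
def Fund (D : ℤ) : Prop := (Squarefree D ∧ D % 4 = 1) ∨
  ∃ m : ℤ, D = 4 * m ∧ Squarefree m ∧ (m % 4 = 2 ∨ m % 4 = 3)

/-- the squarefree integer `d` with `ℚ(√d) = ℚ(√D)` -/
def core (D : ℤ) : ℤ := if D % 2 = 1 then D else D / 4

open Classical in
/-- the number of the squarefree integers `d`, `|d| ≤ X`, with the property `P` -/
noncomputable def count (P : ℤ → Prop) (X : ℕ) : ℕ :=
  ((Finset.Icc (-(X : ℤ)) X).filter fun d => Squarefree d ∧ P d).card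

open Classical in
/-- the number of the fundamental discriminants `D`, `|D| ≤ X`, for which `core D` has the
property `P` -/
noncomputable def countDisc (P : ℤ → Prop) (X : ℕ) : ℕ :=
  ((Finset.Icc (-(X : ℤ)) X).filter fun D => Fund D ∧ P (core D)).card

/-- the local conditions on the quadratic field of discriminant `D` for the curve `C_j`: `3` is not
inert and `5` is not split for `X_0(15)`, `3` is not split and `7` is not inert for `X_0(21)`; the curve
of conductor `17` is not allowed -/
def Allowed : Fin 3 → ℤ → Prop :=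
  ![fun D => D % 3 ≠ 2 ∧ ¬ (D % 5 = 1 ∨ D % 5 = 4), fun _ => False,
    fun D => D % 3 ≠ 1 ∧ ¬ (D % 7 = 3 ∨ D % 7 = 5 ∨ D % 7 = 6)]

/-- the ideal class group of `ℚ(√D)` has no element of order four -/
def NoOrderFour (D : ℤ) : Prop :=
  ∀ (K : Type) [Field K] [NumberField K], Module.finrank ℚ K = 2 →
    (∃ s : K, s ^ 2 = (D : K)) →
    ∀ c : ClassGroup (NumberField.RingOfIntegers K), c ^ 4 = 1 → c ^ 2 = 1

/-- **The `2 ^ ∞`-Selmer groups of all the quadratic twists of three modular curves.** -/
theorem result :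
    -- the zero sequence
    (∀ (j : Fin 3) (d : ℤ), d ≠ 0 →
      (ZeroSeq (E ℚ j d) ↔ ∀ x : SelInf (E ℚ j d), x = 0) ∧
        (ZeroSeq (E ℚ j d) ↔ RankZeroShaTwo j d)) ∧
    -- the densities in the set of all squarefree integers, for every set of curves
    (∀ S : Finset (Fin 3), S.Nonempty →
      Tendsto (fun X : ℕ => (count (fun d => ∀ j ∈ S, ZeroSeq (E ℚ j d)) X : ℝ) /
        (count (fun _ => True) X : ℝ)) atTop (nhds (deltaS S)) ∧
      Tendsto (fun X : ℕ => (countDisc (fun d => ∀ j ∈ S, ZeroSeq (E ℚ j d)) X : ℝ) /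
        (countDisc (fun _ => True) X : ℝ)) atTop (nhds (deltaS S))) ∧
    -- the densities in the set of the `d` with root number `+1`
    (∀ j : Fin 3,
      (∀ d : ℤ, Squarefree d → ZeroSeq (E ℚ j d) → rootNumber j d = 1) ∧
      Tendsto (fun X : ℕ => (count (fun d => ZeroSeq (E ℚ j d)) X : ℝ) /
        (count (fun d => rootNumber j d = 1) X : ℝ)) atTop (nhds (2 * delta j)) ∧
      Tendsto (fun X : ℕ => (countDisc (fun d => ZeroSeq (E ℚ j d)) X : ℝ) /
        (countDisc (fun d => rootNumber j d = 1) X : ℝ)) atTop (nhds (2 * delta j))) ∧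
    -- ideal classes of order four
    (∀ (j : Fin 3) (D : ℤ), Fund D → D < 0 → Allowed j D →
      (ZeroSeq (E ℚ j D) ↔ NoOrderFour D)) ∧
    0.1443 < delta 0 ∧ delta 0 < 0.1445 ∧ 0.2096 < delta 1 ∧ delta 1 < 0.2098 ∧
      0.1544 < delta 2 ∧ delta 2 < 0.1547 :=
  Pool.Agent.N970.AVP.mainS

end Pool.Agent.Results.MP_8cb858_nt.ThreeCurvesAllTwists
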